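import Pool.Agent.Lib.MP_4f0d88_nt.DG.Fin

/-! Polynomials with coefficients `-1, 0, 1`, a zero of order `N` at `1` and degree
`O(N^2 log N / log log N)`. -/

set_option autoImplicit false

namespace Pool.Agent.Lib.MP_4f0d88_nt.Old

open Polynomial

theorem low_degree : ∃ N0 : ℕ, ∀ N ≥ N0, ∃ P : ℤ[X], P ≠ 0 ∧
    (∀ i, P.coeff i = -1 ∨ P.coeff i = 0 ∨ P.coeff i = 1) ∧ (X - 1) ^ N ∣ P ∧
      (P.natDegree : ℝ) ≤ 18000 * (N : ℝ) ^ 2 * Real.log N / Real.log (Real.log N) :=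
  Lib.MP_4f0d88_nt.DG.dense

end Pool.Agent.Lib.MP_4f0d88_nt.Old
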